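import Pool.Agent.N476.PM.Finite
import Pool.Agent.N476.PM.Boxes
import Pool.Agent.R109.SQA

/-!
# MP_507a17_nt, Q1 for `d = 2`: the rate `log N / N` for point sets and arbitrary measures

There is a constant `C` such that for every probability measure `μ` on `[0,1]^2` and every `N ≥ 2`
there are `N` points in `[0,1]^2` whose discrepancy with respect to `μ`, on all axis-parallel
rectangles (products of two intervals of any kind), is at most `C log N / N`.
-/

set_option autoImplicit false

namespace Pool.Agent.Results.MP_507a17_nt.PlaneAllMeasures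

open MeasureTheory Finset Pool.Agent.N476.PM

theorem clog_le (N : ℕ) (hN : 2 ≤ N) : (Nat.clog 2 N : ℝ) ≤ (2 / Real.log 2) * Real.log N := by
  have h1 : 2 ^ (Nat.clog 2 N - 1) < N := Nat.pow_pred_clog_lt_self (by norm_num) (by omega)
  have hK : 1 ≤ Nat.clog 2 N := Nat.clog_pos (by norm_num) hN
  have h2 : ((2 : ℝ) ^ (Nat.clog 2 N - 1)) ≤ N := by exact_mod_cast h1.le
  have h3 := Real.log_le_log (by positivity) h2
  rw [Real.log_pow, Nat.cast_sub hK] at h3
  have hl2 : 0 < Real.log 2 := Real.log_pos (by norm_num)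
  have h4 : Real.log 2 ≤ Real.log N := Real.log_le_log (by norm_num) (by exact_mod_cast hN)
  rw [div_mul_eq_mul_div, le_div_iff₀ hl2]
  push_cast at h3
  linarith

open Classical in
/-- **Q1 for `d = 2` (yes).** One constant `C` serves every probability measure `μ` on `[0,1]^2` and
every `N ≥ 2`: some `N` points of `[0,1]^2` have discrepancy at most `C log N / N` with respect to
`μ` on all products of two intervals `I 0 × I 1` (in particular on all boxes anchored at the
origin). -/
theorem result :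
    ∃ C : ℝ, ∀ μ : Measure (Fin 2 → ℝ), IsProbabilityMeasure μ →
      μ (Set.Icc (0 : Fin 2 → ℝ) 1)ᶜ = 0 →
      ∀ N : ℕ, 2 ≤ N →
        ∃ x : Fin N → (Fin 2 → ℝ), (∀ n, x n ∈ Set.Icc (0 : Fin 2 → ℝ) 1) ∧
          ∀ I : Fin 2 → Set ℝ, (∀ i, (I i).OrdConnected) →
            |((univ.filter (fun n : Fin N => ∀ i, x n i ∈ I i)).card : ℝ) / (N : ℝ)
                - (μ {z : Fin 2 → ℝ | ∀ i, z i ∈ I i}).toReal|
              ≤ C * Real.log (N : ℝ) / (N : ℝ) := by
  obtain ⟨c, hc⟩ := R109.SQA.A_ok 2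
  refine ⟨2 ^ 2 * ((c + 3) * (2 / Real.log 2)), fun μ hμ hμ1 N hN => ?_⟩
  have hN0 : (0 : ℝ) < N := by
    have : 0 < N := by omega
    exact_mod_cast this
  have hK : 1 ≤ Nat.clog 2 N := Nat.clog_pos (by norm_num) hN
  have hNK : N ≤ 2 ^ Nat.clog 2 N := Nat.le_pow_clog (by norm_num) N
  have hKl := clog_le N hN
  set K := Nat.clog 2 N with hKdef
  obtain ⟨m, α, hα, p, hKm, hmc, hcard, hp, happ⟩ := hc μ hμ hμ1 K hK
  obtain ⟨x, hx, hL⟩ := finite_plane m N (hNK.trans (Nat.pow_le_pow_right (by norm_num) hKm)) α p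
    hcard
  refine ⟨x, fun n => ?_, fun I hI => ?_⟩
  · constructor
    · intro i
      obtain ⟨q, hq⟩ := hx n i
      rw [hq]
      exact (hp q).1 i
    · intro i
      obtain ⟨q, hq⟩ := hx n i
      rw [hq]
      exact (hp q).2 i
  · have hKr : (1 : ℝ) ≤ K := by exact_mod_cast hK
    have hmr : (m : ℝ) ≤ c * K := by exact_mod_cast hmc
    have hlow : ∀ L : Fin 2 → Set ℝ, (∀ i, IsLowerSet (L i)) →
        |err μ N x L| ≤ (c + 3) * K := by
      intro L hLL
      have h1 := hL L hLL
      have h2 := happ L hLL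
      unfold err
      set x1 := ((univ.filter (fun n : Fin N => ∀ i, x n i ∈ L i)).card : ℝ)
      set x2 := ((univ.filter (fun q : α => ∀ i, p q i ∈ L i)).card : ℝ) / 2 ^ m
      set x3 := (μ {z | ∀ i, z i ∈ L i}).toReal
      have h4 : |(N : ℝ) * x2 - N * x3| ≤ 1 := by
        rw [← mul_sub, abs_mul, abs_of_nonneg (Nat.cast_nonneg N)]
        calc (N : ℝ) * |x2 - x3| ≤ 2 ^ K * (1 / 2 ^ K) := by
              apply mul_le_mul (by exact_mod_cast hNK) h2 (abs_nonneg _) (by positivity)
          _ = 1 := by field_simp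
      have h5 : |x1 - N * x3| ≤ |x1 - N * x2| + |(N : ℝ) * x2 - N * x3| := by
        have : x1 - N * x3 = (x1 - N * x2) + ((N : ℝ) * x2 - N * x3) := by ring
        rw [this]
        exact abs_add_le _ _
      linarith
    have key := err_le μ N x ((c + 3) * K) hlow 2 I hI (fun i hi => absurd i.2 (not_lt.mpr hi))
    have e : ((univ.filter (fun n : Fin N => ∀ i, x n i ∈ I i)).card : ℝ) / (N : ℝ)
        - (μ {z : Fin 2 → ℝ | ∀ i, z i ∈ I i}).toReal = err μ N x I / N := by
      unfold err
      field_simp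
    rw [e, abs_div, abs_of_pos hN0]
    apply div_le_div_of_nonneg_right _ hN0.le
    refine key.trans ?_
    have : ((c : ℝ) + 3) * K ≤ (c + 3) * ((2 / Real.log 2) * Real.log N) :=
      mul_le_mul_of_nonneg_left hKl (by positivity)
    nlinarith

end Pool.Agent.Results.MP_507a17_nt.PlaneAllMeasures
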